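import Mathlib

/-!
# Zeros of the coefficients of `1/(Q(t) + z t^r)`

For a real polynomial `Q` of positive degree with only positive real zeros and `Q(0) > 0`,
every zero of every coefficient `P_m(z)` of `1/(Q(t) + z t^r)` lies in `(0, ∞)`, for all `r ≥ 0`
and all `m ≥ 0`.

Idea of the proof.  Write `Q = Q(0) ∏_{i<n} (1 - x_i t)`, `w = -z/Q(0)`, `D = ∏ (1 - x_i t) - w t^r`
and `p m j = [t^m] (∏_{i<j} (1 - x_i t)) / D`.  Then `p m j = p m (j+1) + x_j p (m-1) j`, and
`p m n = w p (m-r) 0` for `m ≥ 1`.  For `w` in the upper half plane an induction shows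
`Im (p m j * conj (p i a)) ≥ 0` and `Im (w * p i a * conj (p m j)) ≥ 0` whenever
`i ≤ m ≤ i + r` and `a ≤ j ≤ n`: the numbers of a window lie, in order, in a closed sector of
opening `arg w < π`.  Hence the sum `p (m+1) 0 = x_0 p m 0 + ...` never vanishes.
-/

open Polynomial ComplexConjugate

namespace Pool.Agent.Results.MP_60133c_an.AllZerosPositive

theorem im_aux1 (w u v : ℂ) :
    (w * u * conj (w * v)).im = Complex.normSq w * (u * conj v).im := by
  have e : w * u * conj (w * v) = ((Complex.normSq w : ℝ) : ℂ) * (u * conj v) := by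
    rw [map_mul, Complex.normSq_eq_conj_mul_self]; ring
  rw [e, Complex.im_ofReal_mul]

/-- Key sector lemma (`r ≥ 1`). -/
theorem key (n r : ℕ) (hr : 1 ≤ r) (x : ℕ → ℝ) (hx : ∀ i, 0 < x i) (w : ℂ) (s : ℝ)
    (hw : 0 ≤ s * w.im)
    (p : ℕ → ℕ → ℂ) (h0 : ∀ j, p 0 j = 0) (h1 : ∀ j ≤ n, p 1 j = 1)
    (hrec : ∀ m, ∀ j < n, p (m + 1) j = p (m + 1) (j + 1) + x j * p m j)
    (hper : ∀ m, 2 ≤ m → p m n = w * p (m - r) 0) :
    ∀ N, ∀ i m, i + m = N → i ≤ m → m ≤ i + r → ∀ a j, a ≤ j → j ≤ n →
      0 ≤ s * (p m j * conj (p i a)).im ∧ 0 ≤ s * (w * p i a * conj (p m j)).im := by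
  intro N
  induction N using Nat.strong_induction_on with
  | _ N ih =>
    intro i m hN him hmr
    rcases Nat.eq_zero_or_pos i with hi | hi
    · intro a j _ _
      subst hi
      simp [h0]
    rcases Nat.lt_or_ge i m with hlt | hge
    · -- i < m : descend in j
      intro a j haj hjn
      obtain ⟨d, hd⟩ : ∃ d, n = j + d := ⟨n - j, by omega⟩
      induction d generalizing j with
      | zero =>
        have hjn' : j = n := by omega
        subst hjn'
        have hp := hper m (by omega)
        have h := ih ((m - r) + i) (by omega) (m - r) i rfl (by omega) (by omega) 0 a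
          (Nat.zero_le _) haj
        rw [hp]
        refine ⟨h.2, ?_⟩
        rw [im_aux1]
        have := mul_nonneg (Complex.normSq_nonneg w) h.1
        nlinarith [this]
      | succ d ihd =>
        have h2 := ihd (j + 1) (by omega) (by omega) (by omega)
        obtain ⟨m', rfl⟩ : ∃ m', m = m' + 1 := ⟨m - 1, by omega⟩
        have h3 := ih (i + m') (by omega) i m' rfl (by omega) (by omega) a j haj (by omega)
        rw [hrec m' j (by omega)]
        constructor
        · have e : ((p (m' + 1) (j + 1) + x j * p m' j) * conj (p i a)).im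
              = (p (m' + 1) (j + 1) * conj (p i a)).im + x j * (p m' j * conj (p i a)).im := by
            rw [add_mul, Complex.add_im, mul_assoc, Complex.im_ofReal_mul]
          rw [e]
          have := mul_nonneg (hx j).le h3.1
          nlinarith [h2.1]
        · have e : (w * p i a * conj (p (m' + 1) (j + 1) + x j * p m' j)).im
              = (w * p i a * conj (p (m' + 1) (j + 1))).im
                + x j * (w * p i a * conj (p m' j)).im := by
            rw [map_add, mul_add, Complex.add_im, map_mul, Complex.conj_ofReal,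
              show w * p i a * (↑(x j) * conj (p m' j))
                = ↑(x j) * (w * p i a * conj (p m' j)) by ring, Complex.im_ofReal_mul]
          rw [e]
          have := mul_nonneg (hx j).le h3.2
          nlinarith [h2.2]
    · have hmi : m = i := by omega
      subst hmi
      intro a j haj hjn
      obtain ⟨d, hd⟩ : ∃ d, j = a + d := ⟨j - a, by omega⟩
      induction d generalizing a with
      | zero =>
        have : j = a := by omega
        subst this
        constructor
        · rw [Complex.mul_conj]; simp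
        · rw [mul_assoc, Complex.mul_conj, mul_comm w, Complex.im_ofReal_mul]
          have := mul_nonneg (Complex.normSq_nonneg (p m j)) hw
          nlinarith
      | succ d ihd =>
        have h2 := ihd (a + 1) (by omega) (by omega)
        obtain ⟨m', rfl⟩ : ∃ m', m = m' + 1 := ⟨m - 1, by omega⟩
        have h3 := ih (m' + (m' + 1)) (by omega) m' (m' + 1) rfl (by omega) (by omega) a j haj
          (by omega)
        rw [hrec m' a (by omega)]
        constructor
        · have e : (p (m' + 1) j * conj (p (m' + 1) (a + 1) + x a * p m' a)).im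
              = (p (m' + 1) j * conj (p (m' + 1) (a + 1))).im
                + x a * (p (m' + 1) j * conj (p m' a)).im := by
            rw [map_add, mul_add, Complex.add_im, map_mul, Complex.conj_ofReal,
              show p (m' + 1) j * (↑(x a) * conj (p m' a))
                = ↑(x a) * (p (m' + 1) j * conj (p m' a)) by ring, Complex.im_ofReal_mul]
          rw [e]
          have := mul_nonneg (hx a).le h3.1
          nlinarith [h2.1]
        · have e : (w * (p (m' + 1) (a + 1) + x a * p m' a) * conj (p (m' + 1) j)).im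
              = (w * p (m' + 1) (a + 1) * conj (p (m' + 1) j)).im
                + x a * (w * p m' a * conj (p (m' + 1) j)).im := by
            rw [show w * (p (m' + 1) (a + 1) + x a * p m' a) * conj (p (m' + 1) j)
                = w * p (m' + 1) (a + 1) * conj (p (m' + 1) j)
                  + ↑(x a) * (w * p m' a * conj (p (m' + 1) j)) by ring, Complex.add_im,
                  Complex.im_ofReal_mul]
          rw [e]
          have := mul_nonneg (hx a).le h3.2
          nlinarith [h2.2]

/-- nonvanishing, non-real `w`, `r ≥ 1`. -/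
theorem key_ne (n r : ℕ) (hn : 1 ≤ n) (hr : 1 ≤ r) (x : ℕ → ℝ) (hx : ∀ i, 0 < x i) (w : ℂ) (s : ℝ)
    (hw : 0 < s * w.im)
    (p : ℕ → ℕ → ℂ) (h0 : ∀ j, p 0 j = 0) (h1 : ∀ j ≤ n, p 1 j = 1)
    (hrec : ∀ m, ∀ j < n, p (m + 1) j = p (m + 1) (j + 1) + x j * p m j)
    (hper : ∀ m, 2 ≤ m → p m n = w * p (m - r) 0) (m : ℕ) : p (m + 1) 0 ≠ 0 := by
  induction m with
  | zero => rw [h1 0 (Nat.zero_le _)]; exact one_ne_zero
  | succ m ih =>
    intro hcon
    have h := (key n r hr x hx w s hw.le p h0 h1 hrec hper _ (m + 1) (m + 1 + 1) rfl (by omega)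
      (by omega) 0 1 (by omega) hn).2
    have e := hrec (m + 1) 0 (by omega)
    rw [hcon, zero_add] at e
    have e2 : p (m + 1 + 1) 1 = - (x 0 * p (m + 1) 0) := by
      linear_combination -e
    rw [e2] at h
    have e3 : (w * p (m + 1) 0 * conj (-(x 0 * p (m + 1) 0))).im
        = - (x 0 * Complex.normSq (p (m + 1) 0) * w.im) := by
      have : w * p (m + 1) 0 * conj (-(x 0 * p (m + 1) 0))
          = ((-(x 0 * Complex.normSq (p (m + 1) 0)) : ℝ) : ℂ) * w := by
        push_cast
        rw [map_neg, map_mul, Complex.conj_ofReal, Complex.normSq_eq_conj_mul_self]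
        ring
      rw [this, Complex.im_ofReal_mul]; ring
    rw [e3] at h
    have h5 : 0 < x 0 * Complex.normSq (p (m + 1) 0) :=
      mul_pos (hx 0) (Complex.normSq_pos.mpr ih)
    nlinarith [mul_pos h5 hw]

/-- positivity, real `w ≥ 0`, `r ≥ 1`. -/
theorem key_pos (n r : ℕ) (hn : 1 ≤ n) (hr : 1 ≤ r) (x : ℕ → ℝ) (hx : ∀ i, 0 < x i) (w : ℝ)
    (hw : 0 ≤ w)
    (p : ℕ → ℕ → ℂ) (h0 : ∀ j, p 0 j = 0) (h1 : ∀ j ≤ n, p 1 j = 1)
    (hrec : ∀ m, ∀ j < n, p (m + 1) j = p (m + 1) (j + 1) + x j * p m j)
    (hper : ∀ m, 2 ≤ m → p m n = w * p (m - r) 0) (m : ℕ) : p (m + 1) 0 ≠ 0 := by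
  have H : ∀ m, ∀ j ≤ n, ∃ y : ℝ, 0 ≤ y ∧ p m j = y := by
    intro m
    induction m using Nat.strong_induction_on with
    | _ m ih =>
      intro j hj
      rcases Nat.eq_zero_or_pos m with hm | hm
      · subst hm; exact ⟨0, le_refl _, by simp [h0]⟩
      obtain ⟨d, hd⟩ : ∃ d, n = j + d := ⟨n - j, by omega⟩
      induction d generalizing j with
      | zero =>
        have hjn : j = n := by omega
        subst hjn
        rcases Nat.lt_or_ge m 2 with h | h
        · have : m = 1 := by omega
          subst this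
          exact ⟨1, zero_le_one, by rw [h1 j le_rfl]; simp⟩
        · obtain ⟨y, hy, hy2⟩ := ih (m - r) (by omega) 0 (Nat.zero_le _)
          exact ⟨w * y, mul_nonneg hw hy, by rw [hper m h, hy2]; push_cast; ring⟩
      | succ d ihd =>
        obtain ⟨y1, hy1, hy1'⟩ := ihd (j + 1) (by omega) (by omega)
        obtain ⟨m', rfl⟩ : ∃ m', m = m' + 1 := ⟨m - 1, by omega⟩
        obtain ⟨y2, hy2, hy2'⟩ := ih m' (by omega) j (by omega)
        exact ⟨y1 + x j * y2, add_nonneg hy1 (mul_nonneg (hx j).le hy2), by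
          rw [hrec m' j (by omega), hy1', hy2']; push_cast; ring⟩
  induction m with
  | zero => rw [h1 0 (Nat.zero_le _)]; exact one_ne_zero
  | succ m ih =>
    obtain ⟨y1, hy1, hy1'⟩ := H (m + 1) 0 (Nat.zero_le _)
    obtain ⟨y2, hy2, hy2'⟩ := H (m + 1 + 1) 1 hn
    rw [hrec (m + 1) 0 (by omega), hy2', hy1']
    have hy1pos : 0 < y1 := by
      rcases hy1.lt_or_eq with h | h
      · exact h
      · exfalso; apply ih; rw [hy1', ← h]; simp
    have : (0 : ℝ) < y2 + x 0 * y1 := add_pos_of_nonneg_of_pos hy2 (mul_pos (hx 0) hy1pos)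
    intro hcon
    have h2 : ((y2 + x 0 * y1 : ℝ) : ℂ) = 0 := by push_cast; exact hcon
    rw [Complex.ofReal_eq_zero] at h2
    linarith

theorem im_sum_aux (s : ℝ) (A B : Finset ℕ) (f g : ℕ → ℂ)
    (h : ∀ k ∈ A, ∀ l ∈ B, 0 ≤ s * (f k * conj (g l)).im) :
    0 ≤ s * ((∑ k ∈ A, f k) * conj (∑ l ∈ B, g l)).im := by
  rw [map_sum, Finset.sum_mul_sum, Complex.im_sum, Finset.mul_sum]
  apply Finset.sum_nonneg
  intro k hk
  rw [Complex.im_sum, Finset.mul_sum]
  apply Finset.sum_nonneg
  intro l hl
  exact h k hk l hl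

theorem im_scale (a b : ℝ) (u v : ℂ) :
    ((a * u) * conj (b * v)).im = a * b * (u * conj v).im := by
  have : (a * u) * conj (b * v) = ((a * b : ℝ) : ℂ) * (u * conj v) := by
    rw [map_mul, Complex.conj_ofReal]; push_cast; ring
  rw [this, Complex.im_ofReal_mul]

theorem im_scale' (a b : ℝ) (w u v : ℂ) :
    ((w * (a * u)) * conj (b * v)).im = a * b * (w * u * conj v).im := by
  have : (w * (a * u)) * conj (b * v) = ((a * b : ℝ) : ℂ) * (w * u * conj v) := by
    rw [map_mul, Complex.conj_ofReal]; push_cast; ring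
  rw [this, Complex.im_ofReal_mul]

theorem key0 (n : ℕ) (x : ℕ → ℝ) (hx : ∀ i, 0 < x i) (w : ℂ) (s : ℝ)
    (hw : 0 ≤ s * w.im)
    (q : ℕ → ℕ → ℂ) (h0 : ∀ j ≤ n, q 0 j = 1)
    (hrec : ∀ m, ∀ j ≤ n, q (m + 1) j = (∑ l ∈ Finset.Ico j n, x l * q m l)
      + w * ∑ l ∈ Finset.range j, x l * q m l) (m : ℕ) :
    ∀ a j, a ≤ j → j ≤ n →
      0 ≤ s * (q m j * conj (q m a)).im ∧ 0 ≤ s * (w * q m a * conj (q m j)).im := by
  induction m with
  | zero =>
    intro a j haj hjn
    rw [h0 a (haj.trans hjn), h0 j hjn]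
    simp [hw]
  | succ m ih =>
    intro a j haj hjn
    set A := ∑ l ∈ Finset.range a, (x l : ℂ) * q m l with hA
    set B := ∑ l ∈ Finset.Ico a j, (x l : ℂ) * q m l with hB
    set C := ∑ l ∈ Finset.Ico j n, (x l : ℂ) * q m l with hC
    have ea : q (m + 1) a = (B + C) + w * A := by
      rw [hrec m a (haj.trans hjn), ← Finset.sum_Ico_consecutive _ haj hjn]
    have ej : q (m + 1) j = C + w * (A + B) := by
      rw [hrec m j hjn, ← Finset.sum_range_add_sum_Ico _ haj]
    -- the four pairings
    have CB : 0 ≤ s * (C * conj B).im := by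
      apply im_sum_aux
      intro k hk l hl
      rw [Finset.mem_Ico] at hk hl
      rw [im_scale]
      have := mul_nonneg (mul_nonneg (hx k).le (hx l).le) (ih l k (by omega) (by omega)).1
      linarith
    have AB : 0 ≤ s * (w * A * conj B).im := by
      rw [hA, Finset.mul_sum]
      apply im_sum_aux
      intro k hk l hl
      rw [Finset.mem_range] at hk
      rw [Finset.mem_Ico] at hl
      rw [im_scale']
      have := mul_nonneg (mul_nonneg (hx k).le (hx l).le) (ih k l (by omega) (by omega)).2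
      linarith
    have BC : 0 ≤ s * (w * B * conj C).im := by
      rw [hB, Finset.mul_sum]
      apply im_sum_aux
      intro k hk l hl
      rw [Finset.mem_Ico] at hk hl
      rw [im_scale']
      have := mul_nonneg (mul_nonneg (hx k).le (hx l).le) (ih k l (by omega) (by omega)).2
      linarith
    have BA : 0 ≤ s * (B * conj A).im := by
      apply im_sum_aux
      intro k hk l hl
      rw [Finset.mem_Ico] at hk
      rw [Finset.mem_range] at hl
      rw [im_scale]
      have := mul_nonneg (mul_nonneg (hx k).le (hx l).le) (ih l k (by omega) (by omega)).1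
      linarith
    have BB : 0 ≤ s * (w * B * conj B).im := by
      rw [mul_assoc, Complex.mul_conj, mul_comm w, Complex.im_ofReal_mul]
      have := mul_nonneg (Complex.normSq_nonneg B) hw
      linarith
    have M : 0 ≤ s * (w * (C + w * A) * conj (C + w * A)).im := by
      rw [mul_assoc, Complex.mul_conj, mul_comm w, Complex.im_ofReal_mul]
      have := mul_nonneg (Complex.normSq_nonneg (C + w * A)) hw
      linarith
    have BA' : 0 ≤ s * (w * B * conj (w * A)).im := by
      have := mul_nonneg (Complex.normSq_nonneg w) BA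
      have e : w * B * conj (w * A) = ((Complex.normSq w : ℝ) : ℂ) * (B * conj A) := by
        rw [map_mul, Complex.normSq_eq_conj_mul_self]; ring
      rw [e, Complex.im_ofReal_mul]
      linarith
    rw [ea, ej]
    constructor
    · have e : (C + w * (A + B)) * conj (B + C + w * A)
          = (C + w * A) * conj (C + w * A) + C * conj B + w * A * conj B
            + (w * B * conj B + w * B * conj C + w * B * conj (w * A)) := by
        simp only [map_add, map_mul]; ring
      rw [e]
      simp only [Complex.add_im]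
      have e2 : ((C + w * A) * conj (C + w * A)).im = 0 := by
        rw [Complex.mul_conj]; exact Complex.ofReal_im _
      rw [e2]
      linarith
    · have e : w * (B + C + w * A) * conj (C + w * (A + B))
          = w * (C + w * A) * conj (C + w * A)
            + w * (C + w * A) * conj (w * B)
            + (w * B * conj C + w * B * conj (w * A)) + (w * B) * conj (w * B) := by
        simp only [map_add, map_mul]; ring
      rw [e]
      simp only [Complex.add_im]
      have e2 : ((w * B) * conj (w * B)).im = 0 := by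
        rw [Complex.mul_conj]; exact Complex.ofReal_im _
      have e3 : (w * (C + w * A) * conj (w * B)).im
          = Complex.normSq w * ((C * conj B).im + (w * A * conj B).im) := by
        have : w * (C + w * A) * conj (w * B)
            = ((Complex.normSq w : ℝ) : ℂ) * (C * conj B + w * A * conj B) := by
          rw [map_mul, Complex.normSq_eq_conj_mul_self]; ring
        rw [this, Complex.im_ofReal_mul, Complex.add_im]
      rw [e2, e3]
      have h4 := mul_nonneg (Complex.normSq_nonneg w) CB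
      have h5 := mul_nonneg (Complex.normSq_nonneg w) AB
      nlinarith

theorem key0_ne (n : ℕ) (hn : 1 ≤ n) (x : ℕ → ℝ) (hx : ∀ i, 0 < x i) (w : ℂ) (s : ℝ)
    (hw : 0 < s * w.im)
    (q : ℕ → ℕ → ℂ) (h0 : ∀ j ≤ n, q 0 j = 1)
    (hrec : ∀ m, ∀ j ≤ n, q (m + 1) j = (∑ l ∈ Finset.Ico j n, x l * q m l)
      + w * ∑ l ∈ Finset.range j, x l * q m l) (m : ℕ) : q m 0 ≠ 0 := by
  induction m with
  | zero => rw [h0 0 (Nat.zero_le _)]; exact one_ne_zero
  | succ m ih =>
    intro hcon
    have H := key0 n x hx w s hw.le q h0 hrec m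
    have e := hrec m 0 (Nat.zero_le _)
    rw [hcon, Finset.range_zero, Finset.sum_empty, mul_zero, add_zero,
      Finset.sum_eq_sum_Ico_succ_bot (by omega : 0 < n)] at e
    set T := ∑ l ∈ Finset.Ico (0 + 1) n, (x l : ℂ) * q m l with hT
    have h1 : 0 ≤ s * (w * q m 0 * conj T).im := by
      have : 0 ≤ s * ((∑ k ∈ ({0} : Finset ℕ), w * ((1 : ℝ) * q m k)) * conj T).im := by
        rw [hT]
        apply im_sum_aux
        intro k hk l hl
        rw [Finset.mem_singleton] at hk
        rw [Finset.mem_Ico] at hl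
        subst hk
        rw [im_scale']
        have := mul_nonneg (hx l).le (H 0 l (by omega) (by omega)).2
        linarith
      simpa using this
    have e2 : T = -(x 0 * q m 0) := by linear_combination -e
    rw [e2] at h1
    have e3 : (w * q m 0 * conj (-(x 0 * q m 0))).im
        = - (x 0 * Complex.normSq (q m 0) * w.im) := by
      have : w * q m 0 * conj (-(x 0 * q m 0))
          = ((-(x 0 * Complex.normSq (q m 0)) : ℝ) : ℂ) * w := by
        push_cast
        rw [map_neg, map_mul, Complex.conj_ofReal, Complex.normSq_eq_conj_mul_self]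
        ring
      rw [this, Complex.im_ofReal_mul]; ring
    rw [e3] at h1
    have h5 : 0 < x 0 * Complex.normSq (q m 0) :=
      mul_pos (hx 0) (Complex.normSq_pos.mpr ih)
    nlinarith [mul_pos h5 hw]

theorem key0_pos (n : ℕ) (hn : 1 ≤ n) (x : ℕ → ℝ) (hx : ∀ i, 0 < x i) (w : ℝ)
    (hw : 0 ≤ w)
    (q : ℕ → ℕ → ℂ) (h0 : ∀ j ≤ n, q 0 j = 1)
    (hrec : ∀ m, ∀ j ≤ n, q (m + 1) j = (∑ l ∈ Finset.Ico j n, x l * q m l)
      + w * ∑ l ∈ Finset.range j, x l * q m l) (m : ℕ) : q m 0 ≠ 0 := by
  have H : ∀ m, ∃ y : ℕ → ℝ, (∀ j, 0 ≤ y j) ∧ 0 < y 0 ∧ ∀ j ≤ n, q m j = y j := by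
    intro m
    induction m with
    | zero => exact ⟨fun _ => 1, fun _ => zero_le_one, one_pos, fun j hj => by
        rw [h0 j hj]; simp⟩
    | succ m ih =>
      obtain ⟨y, hy, hy0, hy1⟩ := ih
      refine ⟨fun j => (∑ l ∈ Finset.Ico j n, x l * y l)
        + w * ∑ l ∈ Finset.range j ∩ Finset.range n, x l * y l, ?_, ?_, ?_⟩
      · intro j
        have h1 : 0 ≤ ∑ l ∈ Finset.Ico j n, x l * y l :=
          Finset.sum_nonneg fun l _ => mul_nonneg (hx l).le (hy l)
        have h2 : 0 ≤ ∑ l ∈ Finset.range j ∩ Finset.range n, x l * y l :=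
          Finset.sum_nonneg fun l _ => mul_nonneg (hx l).le (hy l)
        have := mul_nonneg hw h2
        simpa using add_nonneg h1 this
      · have h1 : 0 < ∑ l ∈ Finset.Ico 0 n, x l * y l :=
          Finset.sum_pos' (fun l _ => mul_nonneg (hx l).le (hy l))
            ⟨0, by rw [Finset.mem_Ico]; omega, mul_pos (hx 0) hy0⟩
        simpa using h1
      · intro j hj
        rw [hrec m j hj]
        push_cast
        congr 1
        · apply Finset.sum_congr rfl
          intro l hl
          rw [Finset.mem_Ico] at hl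
          rw [hy1 l (by omega)]
        · congr 1
          rw [Finset.inter_eq_left.mpr (Finset.range_subset_range.mpr hj)]
          apply Finset.sum_congr rfl
          intro l hl
          rw [Finset.mem_range] at hl
          rw [hy1 l (by omega)]
  obtain ⟨y, _, hy0, hy1⟩ := H m
  rw [hy1 0 (Nat.zero_le _), Ne, Complex.ofReal_eq_zero]
  exact hy0.ne'

/-- the partial products `∏_{i<j} (1 - x_i t)`. -/
noncomputable def Qj (x : ℕ → ℝ) (j : ℕ) : PowerSeries ℂ :=
  ∏ i ∈ Finset.range j, (1 - PowerSeries.C (x i : ℂ) * PowerSeries.X)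

theorem Qj_succ (x : ℕ → ℝ) (j : ℕ) :
    Qj x (j + 1) = Qj x j * (1 - PowerSeries.C (x j : ℂ) * PowerSeries.X) := by
  rw [Qj, Finset.prod_range_succ]; rfl

theorem Qj_zero (x : ℕ → ℝ) : Qj x 0 = 1 := by simp [Qj]

theorem coeff_zero_Qj (x : ℕ → ℝ) (j : ℕ) : PowerSeries.coeff 0 (Qj x j) = 1 := by
  induction j with
  | zero => simp [Qj_zero]
  | succ j ih =>
    rw [Qj_succ]
    simp only [PowerSeries.coeff_zero_eq_constantCoeff] at ih ⊢
    simp [ih]

theorem coeff_one_Qj (x : ℕ → ℝ) (j : ℕ) :
    PowerSeries.coeff 1 (Qj x j) = -∑ i ∈ Finset.range j, (x i : ℂ) := by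
  induction j with
  | zero => simp [Qj_zero, PowerSeries.coeff_one]
  | succ j ih =>
    rw [Qj_succ, mul_sub, mul_one, map_sub, ih, Finset.sum_range_succ,
      show Qj x j * (PowerSeries.C (x j : ℂ) * PowerSeries.X)
        = PowerSeries.C (x j : ℂ) * (Qj x j * PowerSeries.X) by ring,
      PowerSeries.coeff_C_mul, show (1 : ℕ) = 0 + 1 by rfl, PowerSeries.coeff_succ_mul_X,
      coeff_zero_Qj]
    ring

theorem coeff_rec (x : ℕ → ℝ) (U : PowerSeries ℂ) (m j : ℕ) :
    PowerSeries.coeff (m + 1) (Qj x j * U)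
      = PowerSeries.coeff (m + 1) (Qj x (j + 1) * U) + x j * PowerSeries.coeff m (Qj x j * U) := by
  have : Qj x j * U = Qj x (j + 1) * U + PowerSeries.C (x j : ℂ) * (Qj x j * U * PowerSeries.X) := by
    rw [Qj_succ]; ring
  conv_lhs => rw [this]
  rw [map_add, PowerSeries.coeff_C_mul, PowerSeries.coeff_succ_mul_X]

theorem core_pos_r (n r : ℕ) (hn : 1 ≤ n) (hr : 1 ≤ r) (x : ℕ → ℝ) (hx : ∀ i, 0 < x i) (w : ℂ)
    (hw : w.im = 0 → 0 ≤ w.re) (m : ℕ) :
    PowerSeries.coeff m (Qj x n - PowerSeries.C w * PowerSeries.X ^ r)⁻¹ ≠ 0 := by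
  set D := Qj x n - PowerSeries.C w * PowerSeries.X ^ r with hD
  have hD0 : PowerSeries.constantCoeff D = 1 := by
    have := coeff_zero_Qj x n
    rw [PowerSeries.coeff_zero_eq_constantCoeff] at this
    rw [hD, map_sub, this, map_mul, map_pow, PowerSeries.constantCoeff_X, zero_pow (by omega)]
    simp
  have hDne : PowerSeries.constantCoeff D ≠ 0 := by rw [hD0]; exact one_ne_zero
  have hinv : D * D⁻¹ = 1 := PowerSeries.mul_inv_cancel D hDne
  set U := PowerSeries.X * D⁻¹ with hU
  let p : ℕ → ℕ → ℂ := fun m j => PowerSeries.coeff m (Qj x j * U)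
  have h0 : ∀ j, p 0 j = 0 := by
    intro j
    simp [p, hU]
  have h1 : ∀ j ≤ n, p 1 j = 1 := by
    intro j _
    have e : Qj x j * U = (Qj x j * D⁻¹) * PowerSeries.X := by rw [hU]; ring
    show PowerSeries.coeff (0 + 1) (Qj x j * U) = 1
    rw [e, PowerSeries.coeff_succ_mul_X]
    have h2 := coeff_zero_Qj x j
    rw [PowerSeries.coeff_zero_eq_constantCoeff] at h2 ⊢
    simp [h2, hD0]
  have hrec : ∀ m, ∀ j < n, p (m + 1) j = p (m + 1) (j + 1) + x j * p m j :=
    fun m j _ => coeff_rec x U m j
  have hper : ∀ m, 2 ≤ m → p m n = w * p (m - r) 0 := by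
    intro m hm
    have e : Qj x n * U = PowerSeries.X + PowerSeries.C w * (U * PowerSeries.X ^ r) := by
      have : Qj x n = D + PowerSeries.C w * PowerSeries.X ^ r := by rw [hD]; ring
      rw [this, add_mul, hU, show D * (PowerSeries.X * D⁻¹) = PowerSeries.X * (D * D⁻¹) by ring,
        hinv]
      ring
    show PowerSeries.coeff m (Qj x n * U) = w * PowerSeries.coeff (m - r) (Qj x 0 * U)
    rw [e, Qj_zero, one_mul, map_add, PowerSeries.coeff_C_mul, PowerSeries.coeff_mul_X_pow',
      PowerSeries.coeff_X, if_neg (by omega), zero_add]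
    split_ifs with h
    · rfl
    · have : m - r = 0 := by omega
      rw [this]
      simp [hU]
  have hcoef : PowerSeries.coeff m D⁻¹ = p (m + 1) 0 := by
    show _ = PowerSeries.coeff (m + 1) (Qj x 0 * U)
    rw [Qj_zero, one_mul, hU, PowerSeries.coeff_succ_X_mul]
  rw [hcoef]
  rcases lt_trichotomy w.im 0 with h | h | h
  · exact key_ne n r hn hr x hx w (-1) (by linarith) p h0 h1 hrec hper m
  · have hwr : w = (w.re : ℂ) := Complex.ext (by simp) (by simp [h])
    exact key_pos n r hn hr x hx w.re (hw h) p h0 h1 hrec (by rw [← hwr]; exact hper) m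
  · exact key_ne n r hn hr x hx w 1 (by linarith) p h0 h1 hrec hper m

theorem core_zero_r (n : ℕ) (hn : 1 ≤ n) (x : ℕ → ℝ) (hx : ∀ i, 0 < x i) (w : ℂ)
    (hw : w.im = 0 → 0 ≤ w.re) (hw1 : w ≠ 1) (m : ℕ) :
    PowerSeries.coeff m (Qj x n - PowerSeries.C w)⁻¹ ≠ 0 := by
  set D := Qj x n - PowerSeries.C w with hD
  have hD0 : PowerSeries.constantCoeff D = 1 - w := by
    have := coeff_zero_Qj x n
    rw [PowerSeries.coeff_zero_eq_constantCoeff] at this
    rw [hD, map_sub, this, PowerSeries.constantCoeff_C]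
  have h1w : 1 - w ≠ 0 := sub_ne_zero.mpr (Ne.symm hw1)
  have hDne : PowerSeries.constantCoeff D ≠ 0 := by rw [hD0]; exact h1w
  have hinv : D * D⁻¹ = 1 := PowerSeries.mul_inv_cancel D hDne
  let c : ℕ → ℕ → ℂ := fun m j => PowerSeries.coeff m (Qj x j * D⁻¹)
  let q : ℕ → ℕ → ℂ := fun m j => (1 - w) ^ (m + 1) * c m j
  have h0 : ∀ j ≤ n, q 0 j = 1 := by
    intro j _
    have h2 := coeff_zero_Qj x j
    rw [PowerSeries.coeff_zero_eq_constantCoeff] at h2
    simp [q, c, h2, hD0, h1w]
  have crec : ∀ m j, c (m + 1) j = c (m + 1) (j + 1) + x j * c m j :=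
    fun m j => coeff_rec x D⁻¹ m j
  have cper : ∀ m, c (m + 1) n = w * c (m + 1) 0 := by
    intro m
    have e : Qj x n * D⁻¹ = 1 + PowerSeries.C w * D⁻¹ := by
      have : Qj x n = D + PowerSeries.C w := by rw [hD]; ring
      rw [this, add_mul, hinv]
    show PowerSeries.coeff (m + 1) (Qj x n * D⁻¹) = w * PowerSeries.coeff (m + 1) (Qj x 0 * D⁻¹)
    rw [e, Qj_zero, one_mul, map_add, PowerSeries.coeff_C_mul, PowerSeries.coeff_one,
      if_neg (by omega), zero_add]
  have csum1 : ∀ m j, c (m + 1) 0 = c (m + 1) j + ∑ l ∈ Finset.range j, x l * c m l := by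
    intro m j
    induction j with
    | zero => simp
    | succ j ih =>
      rw [Finset.sum_range_succ, ih, crec m j]; ring
  have hrec : ∀ m, ∀ j ≤ n, q (m + 1) j = (∑ l ∈ Finset.Ico j n, x l * q m l)
      + w * ∑ l ∈ Finset.range j, x l * q m l := by
    intro m j hj
    have e1 := csum1 m j
    have e2 := csum1 m n
    rw [← Finset.sum_range_add_sum_Ico _ hj, cper m] at e2
    have s1 : ∑ l ∈ Finset.Ico j n, (x l : ℂ) * q m l
        = (1 - w) ^ (m + 1) * ∑ l ∈ Finset.Ico j n, (x l : ℂ) * c m l := by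
      rw [Finset.mul_sum]; apply Finset.sum_congr rfl; intro l _; simp only [q]; ring
    have s2 : ∑ l ∈ Finset.range j, (x l : ℂ) * q m l
        = (1 - w) ^ (m + 1) * ∑ l ∈ Finset.range j, (x l : ℂ) * c m l := by
      rw [Finset.mul_sum]; apply Finset.sum_congr rfl; intro l _; simp only [q]; ring
    rw [s1, s2]
    show (1 - w) ^ (m + 1 + 1) * c (m + 1) j = _
    have e3 : (1 - w) * c (m + 1) j = (∑ l ∈ Finset.Ico j n, (x l : ℂ) * c m l)
        + w * ∑ l ∈ Finset.range j, (x l : ℂ) * c m l := by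
      linear_combination (-1 + w) * e1 + e2
    rw [pow_succ, mul_assoc, e3]; ring
  have hq : q m 0 ≠ 0 := by
    rcases lt_trichotomy w.im 0 with h | h | h
    · exact key0_ne n hn x hx w (-1) (by linarith) q h0 hrec m
    · have hwr : w = (w.re : ℂ) := Complex.ext (by simp) (by simp [h])
      exact key0_pos n hn x hx w.re (hw h) q h0 (by rw [← hwr]; exact hrec) m
    · exact key0_ne n hn x hx w 1 (by linarith) q h0 hrec m
  intro hcon
  apply hq
  have : c m 0 = 0 := by
    show PowerSeries.coeff m (Qj x 0 * D⁻¹) = 0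
    rw [Qj_zero, one_mul, hcon]
  simp [q, this]

theorem list_factor (l : List ℂ) (hl : ∀ a ∈ l, 0 < a.re ∧ a.im = 0) :
    ∃ (x : ℕ → ℝ) (c : ℂ), (∀ i, 0 < x i) ∧
      (((l.map fun a => (X - C a : ℂ[X])).prod : ℂ[X]) : PowerSeries ℂ)
        = PowerSeries.C c * Qj x l.length := by
  induction l with
  | nil => exact ⟨fun _ => 1, 1, fun _ => one_pos, by simp [Qj_zero]⟩
  | cons a l ih =>
    obtain ⟨x, c, hx, h⟩ := ih (fun b hb => hl b (List.mem_cons_of_mem a hb))
    have ha := hl a List.mem_cons_self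
    have ha' : a = (a.re : ℂ) := Complex.ext (by simp) (by simp [ha.2])
    refine ⟨fun i => if i < l.length then x i else 1 / a.re, -a * c, ?_, ?_⟩
    · intro i
      show 0 < (if i < l.length then x i else 1 / a.re)
      split_ifs
      · exact hx i
      · exact one_div_pos.mpr ha.1
    · rw [List.map_cons, List.prod_cons, Polynomial.coe_mul, h, List.length_cons, Qj_succ]
      have e1 : Qj (fun i => if i < l.length then x i else 1 / a.re) l.length
          = Qj x l.length := by
        unfold Qj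
        apply Finset.prod_congr rfl
        intro i hi
        rw [Finset.mem_range] at hi
        simp [hi]
      rw [e1]
      simp only [lt_irrefl, if_false]
      have e2 : (((X - C a : ℂ[X])) : PowerSeries ℂ)
          = PowerSeries.C (-a) * (1 - PowerSeries.C (((1 / a.re : ℝ)) : ℂ) * PowerSeries.X) := by
        have hne : (a.re : ℂ) ≠ 0 := by
          rw [Ne, Complex.ofReal_eq_zero]; exact ha.1.ne'
        rw [mul_sub, mul_one, ← mul_assoc, ← map_mul]
        have : -a * (((1 / a.re : ℝ)) : ℂ) = -1 := by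
          conv_lhs => rw [ha']
          push_cast
          simp only [Complex.ofReal_re]
          field_simp
        rw [this, Polynomial.coe_sub, Polynomial.coe_X, Polynomial.coe_C]
        simp
        ring
      rw [e2, map_mul]
      ring

theorem factor (Q : ℝ[X]) (hQ : 0 < Q.natDegree) (h0 : 0 < Q.eval 0)
    (hroots : ∀ a : ℂ, aeval a Q = 0 → 0 < a.re ∧ a.im = 0) :
    ∃ (x : ℕ → ℝ) (n : ℕ), 1 ≤ n ∧ (∀ i, 0 < x i) ∧
      ((Q.map (algebraMap ℝ ℂ) : ℂ[X]) : PowerSeries ℂ)
        = PowerSeries.C ((Q.eval 0 : ℝ) : ℂ) * Qj x n := by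
  set P := Q.map (algebraMap ℝ ℂ) with hP
  have hQ0 : Q ≠ 0 := by rintro rfl; simp at hQ
  have hP0 : P ≠ 0 := (Polynomial.map_ne_zero_iff (algebraMap ℝ ℂ).injective).mpr hQ0
  have hsp : P.Splits := IsAlgClosed.splits P
  have hprod := hsp.eq_prod_roots
  obtain ⟨x, c, hx, hc⟩ := list_factor P.roots.toList (by
    intro a ha
    rw [Multiset.mem_toList, Polynomial.mem_roots hP0] at ha
    apply hroots
    rwa [Polynomial.IsRoot.def, hP, Polynomial.eval_map_algebraMap] at ha)
  have hcard : P.roots.toList.length = Q.natDegree := by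
    rw [Multiset.length_toList, ← hsp.natDegree_eq_card_roots, hP,
      Polynomial.natDegree_map]
  refine ⟨x, Q.natDegree, hQ, hx, ?_⟩
  have e1 : (P : PowerSeries ℂ) = PowerSeries.C (P.leadingCoeff * c) * Qj x Q.natDegree := by
    conv_lhs => rw [hprod]
    have : (Multiset.map (fun a => X - C a) P.roots).prod
        = (P.roots.toList.map fun a => (X - C a : ℂ[X])).prod := by
      conv_lhs => rw [← Multiset.coe_toList P.roots]
      rw [Multiset.map_coe, Multiset.prod_coe]
    rw [this, Polynomial.coe_mul, hc, hcard, Polynomial.coe_C, map_mul]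
    ring
  have e2 : PowerSeries.coeff 0 (P : PowerSeries ℂ) = ((Q.eval 0 : ℝ) : ℂ) := by
    rw [Polynomial.coeff_coe, hP, Polynomial.coeff_map, Polynomial.coeff_zero_eq_eval_zero]
    rfl
  have e3 : PowerSeries.coeff 0 (P : PowerSeries ℂ) = P.leadingCoeff * c := by
    rw [e1, PowerSeries.coeff_C_mul, coeff_zero_Qj, mul_one]
  rw [← e2, e3, e1]

/-- The numerators: `numSeq d m = d_0^(m+1) [t^m] 1/(∑ d_k t^k)`. -/
noncomputable def numSeq {R : Type*} [CommRing R] (d : ℕ → R) : ℕ → R
  | 0 => 1
  | (m + 1) => -∑ k : Fin (m + 1), d 0 ^ (k : ℕ) * d (k + 1) * numSeq d (m - k)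

theorem numSeq_zero {R : Type*} [CommRing R] (d : ℕ → R) : numSeq d 0 = 1 := by
  rw [numSeq]

theorem numSeq_succ {R : Type*} [CommRing R] (d : ℕ → R) (m : ℕ) :
    numSeq d (m + 1) = -∑ k ∈ Finset.range (m + 1), d 0 ^ k * d (k + 1) * numSeq d (m - k) := by
  rw [numSeq, Finset.sum_range]

theorem numSeq_map {R S : Type*} [CommRing R] [CommRing S] (f : R →+* S) (d : ℕ → R) (m : ℕ) :
    f (numSeq d m) = numSeq (fun k => f (d k)) m := by
  induction m using Nat.strong_induction_on with
  | _ m ih =>
    cases m with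
    | zero => simp [numSeq_zero]
    | succ m =>
      rw [numSeq_succ, numSeq_succ, map_neg, map_sum]
      congr 1
      apply Finset.sum_congr rfl
      intro k _
      rw [map_mul, map_mul, map_pow, ih (m - k) (by omega)]

theorem numSeq_of_zero {R : Type*} [CommRing R] (d : ℕ → R) (h : d 0 = 0) (m : ℕ) :
    numSeq d m = (-d 1) ^ m := by
  induction m with
  | zero => simp [numSeq_zero]
  | succ m ih =>
    rw [numSeq_succ, Finset.sum_range_succ', Finset.sum_eq_zero]
    · simp [ih, pow_succ]; ring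
    · intro k _
      rw [h, zero_pow (by omega)]; ring

theorem numSeq_eq {F : Type*} [Field F] (D : PowerSeries F) (h : PowerSeries.coeff 0 D ≠ 0) (m : ℕ) :
    numSeq (fun k => PowerSeries.coeff k D) m
      = (PowerSeries.coeff 0 D) ^ (m + 1) * PowerSeries.coeff m D⁻¹ := by
  have h' : PowerSeries.constantCoeff D ≠ 0 := by
    rwa [PowerSeries.coeff_zero_eq_constantCoeff] at h
  have hinv : D * D⁻¹ = 1 := PowerSeries.mul_inv_cancel D h'
  induction m using Nat.strong_induction_on with
  | _ m ih =>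
    cases m with
    | zero =>
      rw [numSeq_zero, zero_add, pow_one]
      have := congrArg (PowerSeries.coeff 0) hinv
      rw [PowerSeries.coeff_mul, PowerSeries.coeff_one] at this
      simpa using this.symm
    | succ m =>
      have hc := congrArg (PowerSeries.coeff (m + 1)) hinv
      rw [PowerSeries.coeff_mul, PowerSeries.coeff_one, if_neg (by omega),
        Finset.Nat.sum_antidiagonal_eq_sum_range_succ_mk, Finset.sum_range_succ'] at hc
      simp only [Nat.sub_zero] at hc
      rw [numSeq_succ]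
      have e : ∀ k ∈ Finset.range (m + 1),
          (PowerSeries.coeff 0 D) ^ k * PowerSeries.coeff (k + 1) D
            * numSeq (fun k => PowerSeries.coeff k D) (m - k)
          = (PowerSeries.coeff 0 D) ^ (m + 1) *
            (PowerSeries.coeff (k + 1) D * PowerSeries.coeff (m + 1 - (k + 1)) D⁻¹) := by
        intro k hk
        rw [Finset.mem_range] at hk
        rw [ih (m - k) (by omega), show m + 1 - (k + 1) = m - k by omega]
        have : (m : ℕ) + 1 = k + (m - k + 1) := by omega
        rw [this, pow_add]; ring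
      rw [Finset.sum_congr rfl e, ← Finset.mul_sum]
      have : ∑ k ∈ Finset.range (m + 1),
          PowerSeries.coeff (k + 1) D * PowerSeries.coeff (m + 1 - (k + 1)) D⁻¹
          = - (PowerSeries.coeff 0 D * PowerSeries.coeff (m + 1) D⁻¹) := by
        linear_combination hc
      rw [this]; ring


/-- `coeffFn Q r m` is `P_m(z)`: the coefficient of `t^m` in the formal power series inverse of
`Q(t) + z t^r`, taken in the power series ring `ℝ(z)[[t]]` over the field `ℝ(z) = RatFunc ℝ`
of rational functions of `z`. -/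
noncomputable def coeffFn (Q : ℝ[X]) (r m : ℕ) : RatFunc ℝ :=
  PowerSeries.coeff m
    (((Q.map (algebraMap ℝ (RatFunc ℝ)) : (RatFunc ℝ)[X]) : PowerSeries (RatFunc ℝ))
      + PowerSeries.C RatFunc.X * PowerSeries.X ^ r)⁻¹

/-- Sanity check: `(Q(t) + z t^r) * ∑ P_m(z) t^m = 1`, so that the inverse above is a true
inverse (also for `r = 0`). -/
theorem coeffFn_spec (Q : ℝ[X]) (h0 : 0 < Q.eval 0) (r : ℕ) :
    (((Q.map (algebraMap ℝ (RatFunc ℝ)) : (RatFunc ℝ)[X]) : PowerSeries (RatFunc ℝ))
      + PowerSeries.C RatFunc.X * PowerSeries.X ^ r) * PowerSeries.mk (coeffFn Q r) = 1 := by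
  have hmk : PowerSeries.mk (coeffFn Q r)
      = (((Q.map (algebraMap ℝ (RatFunc ℝ)) : (RatFunc ℝ)[X]) : PowerSeries (RatFunc ℝ))
        + PowerSeries.C RatFunc.X * PowerSeries.X ^ r)⁻¹ := by
    ext m
    rw [PowerSeries.coeff_mk]; rfl
  rw [hmk]
  apply PowerSeries.mul_inv_cancel
  have hc : PowerSeries.constantCoeff
      (((Q.map (algebraMap ℝ (RatFunc ℝ)) : (RatFunc ℝ)[X]) : PowerSeries (RatFunc ℝ))
        + PowerSeries.C RatFunc.X * PowerSeries.X ^ r)
      = algebraMap ℝ[X] (RatFunc ℝ) (C (Q.coeff 0) + if 0 = r then X else 0) := by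
    rw [← PowerSeries.coeff_zero_eq_constantCoeff_apply, map_add, Polynomial.coeff_coe,
      Polynomial.coeff_map, PowerSeries.coeff_C_mul, PowerSeries.coeff_X_pow, map_add]
    congr 1
    split_ifs <;> simp
  rw [hc]
  refine (map_ne_zero_iff _ (RatFunc.algebraMap_injective ℝ)).mpr ?_
  intro h
  have := congrArg (fun p => Polynomial.coeff p 0) h
  rw [← Polynomial.coeff_zero_eq_eval_zero] at h0
  split_ifs at this <;> simp at this <;> exact h0.ne' this

/-- **Full answer to Q1.**  Let `Q` be a real polynomial of positive degree with `Q(0) > 0`, all of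
whose complex zeros are positive real numbers.  Then for every `r ≥ 0` and every `m ≥ 0`, every
complex zero `z` of the reduced numerator of `P_m(z) = [t^m] 1/(Q(t) + z t^r)` lies in `(0, ∞)`.
(For `r ≥ 1`, `P_m` is a polynomial and is its own reduced numerator.) -/
theorem result (Q : ℝ[X]) (hQ : 0 < Q.natDegree) (h0 : 0 < Q.eval 0)
    (hroots : ∀ a : ℂ, aeval a Q = 0 → 0 < a.re ∧ a.im = 0) (r m : ℕ) :
    ∀ z : ℂ, aeval z (coeffFn Q r m).num = 0 → 0 < z.re ∧ z.im = 0 := by
  intro z hz
  by_contra hcon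
  obtain ⟨x, n, hn, hx, hfac⟩ := factor Q hQ h0 hroots
  let d : ℕ → ℝ[X] := fun k => C (Q.coeff k) + if k = r then X else 0
  have hd0 : d 0 ≠ 0 := by
    intro h
    have := congrArg (fun p => Polynomial.coeff p 0) h
    simp only [d] at this
    rw [← Polynomial.coeff_zero_eq_eval_zero] at h0
    split_ifs at this <;> simp at this <;> exact h0.ne' this
  set DK : PowerSeries (RatFunc ℝ) :=
    (((Q.map (algebraMap ℝ (RatFunc ℝ)) : (RatFunc ℝ)[X]) : PowerSeries (RatFunc ℝ))
      + PowerSeries.C RatFunc.X * PowerSeries.X ^ r) with hDK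
  have hDKc : ∀ k, PowerSeries.coeff k DK = algebraMap ℝ[X] (RatFunc ℝ) (d k) := by
    intro k
    rw [hDK, map_add, Polynomial.coeff_coe, Polynomial.coeff_map, PowerSeries.coeff_C_mul,
      PowerSeries.coeff_X_pow]
    simp only [d, map_add]
    congr 1
    split_ifs <;> simp
  have hDK0 : PowerSeries.coeff 0 DK ≠ 0 := by
    rw [hDKc]
    exact (map_ne_zero_iff _ (RatFunc.algebraMap_injective ℝ)).mpr hd0
  have hPi := numSeq_eq DK hDK0 m
  rw [show (fun k => PowerSeries.coeff k DK) = fun k => algebraMap ℝ[X] (RatFunc ℝ) (d k) from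
    funext hDKc, ← numSeq_map, hDKc] at hPi
  have hP : coeffFn Q r m = PowerSeries.coeff m DK⁻¹ := rfl
  rw [← hP] at hPi
  have hnum : numSeq d m * (coeffFn Q r m).denom = d 0 ^ (m + 1) * (coeffFn Q r m).num := by
    apply RatFunc.algebraMap_injective ℝ
    rw [map_mul, map_mul, map_pow, hPi]
    have := RatFunc.num_div_denom (coeffFn Q r m)
    have hden : algebraMap ℝ[X] (RatFunc ℝ) (coeffFn Q r m).denom ≠ 0 :=
      (map_ne_zero_iff _ (RatFunc.algebraMap_injective ℝ)).mpr (RatFunc.denom_ne_zero _)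
    rw [div_eq_iff hden] at this
    rw [this]; ring
  have hev := congrArg (aeval z) hnum
  rw [map_mul, map_mul, hz, mul_zero] at hev
  have hcop := RatFunc.isCoprime_num_denom (coeffFn Q r m)
  have hdenz : aeval z (coeffFn Q r m).denom ≠ 0 := by
    intro h
    obtain ⟨a, b, hab⟩ := hcop
    have := congrArg (aeval z) hab
    rw [map_add, map_mul, map_mul, hz, h, mul_zero, mul_zero, add_zero, map_one] at this
    exact zero_ne_one this
  have hPiz : aeval z (numSeq d m) = 0 := by
    rcases mul_eq_zero.mp hev with h | h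
    · exact h
    · exact absurd h hdenz
  set DC : PowerSeries ℂ := ((Q.map (algebraMap ℝ ℂ) : ℂ[X]) : PowerSeries ℂ)
    + PowerSeries.C z * PowerSeries.X ^ r with hDC
  have hDCc : ∀ k, PowerSeries.coeff k DC = aeval z (d k) := by
    intro k
    rw [hDC, map_add, Polynomial.coeff_coe, Polynomial.coeff_map, PowerSeries.coeff_C_mul,
      PowerSeries.coeff_X_pow]
    simp only [d, map_add, aeval_C]
    congr 1
    split_ifs <;> simp
  have hmap : aeval z (numSeq d m) = numSeq (fun k => PowerSeries.coeff k DC) m := by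
    have := numSeq_map (aeval z : ℝ[X] →ₐ[ℝ] ℂ).toRingHom d m
    rw [show (fun k => PowerSeries.coeff k DC) = fun k => aeval z (d k) from funext hDCc]
    exact this
  rw [hmap] at hPiz
  have hcC : ((Q.eval 0 : ℝ) : ℂ) ≠ 0 := by
    rw [Ne, Complex.ofReal_eq_zero]; exact h0.ne'
  by_cases hD0 : PowerSeries.coeff 0 DC = 0
  · -- the pole
    rw [numSeq_of_zero _ hD0] at hPiz
    have h1 : PowerSeries.coeff 1 DC = 0 := by
      rcases Nat.eq_zero_or_pos m with hm | hm
      · subst hm; simp at hPiz
      · have := (pow_eq_zero_iff (by omega)).mp hPiz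
        simpa using this
    have hr0 : r = 0 := by
      by_contra hr
      apply hcC
      rw [hDC, hfac, map_add, PowerSeries.coeff_C_mul, PowerSeries.coeff_C_mul, coeff_zero_Qj,
        PowerSeries.coeff_X_pow, if_neg (by omega)] at hD0
      simpa using hD0
    subst hr0
    rw [hDC, hfac, map_add, PowerSeries.coeff_C_mul, PowerSeries.coeff_C_mul, coeff_one_Qj,
        PowerSeries.coeff_X_pow, if_neg (by omega), mul_zero, add_zero] at h1
    rcases mul_eq_zero.mp h1 with h | h
    · exact hcC h
    · have hs : (0 : ℝ) < ∑ i ∈ Finset.range n, x i :=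
        Finset.sum_pos (fun i _ => hx i) ⟨0, by rw [Finset.mem_range]; omega⟩
      rw [neg_eq_zero] at h
      have : ((∑ i ∈ Finset.range n, x i : ℝ) : ℂ) = 0 := by push_cast; exact h
      rw [Complex.ofReal_eq_zero] at this
      linarith
  · rw [numSeq_eq DC hD0] at hPiz
    have hz0 : PowerSeries.coeff m DC⁻¹ = 0 := by
      rcases mul_eq_zero.mp hPiz with h | h
      · exact absurd h (pow_ne_zero _ hD0)
      · exact h
    set w : ℂ := -z / ((Q.eval 0 : ℝ) : ℂ) with hwdef
    have hzw : z = -(((Q.eval 0 : ℝ) : ℂ) * w) := by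
      rw [hwdef]; field_simp
    have hDC2 : DC = PowerSeries.C ((Q.eval 0 : ℝ) : ℂ)
        * (Qj x n - PowerSeries.C w * PowerSeries.X ^ r) := by
      rw [hDC, hfac, hzw]
      rw [map_neg, map_mul]
      ring
    have hw : w.im = 0 → 0 ≤ w.re := by
      intro him
      by_contra hre
      push Not at hre
      apply hcon
      rw [hzw]
      constructor
      · rw [Complex.neg_re, Complex.re_ofReal_mul]
        nlinarith [mul_pos h0 (neg_pos.mpr hre)]
      · rw [Complex.neg_im, Complex.im_ofReal_mul, him]; simp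
    have hinv : DC⁻¹ = PowerSeries.C (((Q.eval 0 : ℝ) : ℂ)⁻¹)
        * (Qj x n - PowerSeries.C w * PowerSeries.X ^ r)⁻¹ := by
      rw [hDC2, PowerSeries.mul_inv_rev, PowerSeries.C_inv, mul_comm]
    rw [hinv, PowerSeries.coeff_C_mul] at hz0
    rcases mul_eq_zero.mp hz0 with h | h
    · exact inv_ne_zero hcC h
    · rcases Nat.eq_zero_or_pos r with hr | hr
      · subst hr
        rw [pow_zero, mul_one] at h
        apply core_zero_r n hn x hx w hw ?_ m h
        intro hw1
        apply hD0
        rw [hDC2, hw1]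
        rw [PowerSeries.coeff_C_mul, map_sub, coeff_zero_Qj]
        simp
      · exact core_pos_r n r hn hr x hx w hw m h

end Pool.Agent.Results.MP_60133c_an.AllZerosPositive
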